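import Pool.Agent.W78.EC.Defs4

set_option autoImplicit false

/-!
# The number of the factorisations `d d' = n ^ 2 + 1` in a box
-/

namespace Pool.Agent.W368.EC

open Finset

/-- the factorisations of `n ^ 2 + 1` come from pairs of Gaussian integers -/
theorem rep (n : ℕ) : ∀ d d' : ℕ, d * d' = n ^ 2 + 1 → ∃ a b c e : ℤ,
    a ^ 2 + b ^ 2 = d ∧ c ^ 2 + e ^ 2 = d' ∧ a * e - b * c = 1 ∧ a * c + b * e = n := by
  induction n using Nat.strong_induction_on with
  | _ n ih =>
    have aux : ∀ d d' : ℕ, d ≤ d' → d * d' = n ^ 2 + 1 → ∃ a b c e : ℤ,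
        a ^ 2 + b ^ 2 = d ∧ c ^ 2 + e ^ 2 = d' ∧ a * e - b * c = 1 ∧ a * c + b * e = n := by
      intro d d' hdd h
      rcases Nat.eq_zero_or_pos n with hn | hn
      · subst hn
        have h1 : d * d' = 1 := by simpa using h
        obtain ⟨rfl, rfl⟩ : d = 1 ∧ d' = 1 :=
          ⟨Nat.eq_one_of_mul_eq_one_right h1, Nat.eq_one_of_mul_eq_one_left h1⟩
        exact ⟨1, 0, 0, 1, by norm_num, by norm_num, by norm_num, by norm_num⟩
      · have hd1 : 1 ≤ d := by
          rcases Nat.eq_zero_or_pos d with h0 | h0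
          · subst h0
            rw [Nat.zero_mul] at h
            omega
          · exact h0
        have hdn : d ≤ n := by
          by_contra hc
          have h1 : (n + 1) * (n + 1) ≤ d * d' := Nat.mul_le_mul (by omega) (by omega)
          rw [h] at h1
          nlinarith
        have h2n : 2 * n ≤ d + d' := by
          by_contra hc
          have h1 : d + d' + 1 ≤ 2 * n := by omega
          have h2 : (d + d' + 1) * (d + d' + 1) ≤ (2 * n) * (2 * n) := Nat.mul_le_mul h1 h1
          have h3 : 4 * (d * d') = 4 * n ^ 2 + 4 := by rw [h]; ring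
          have h4 : 4 * (d * d') ≤ (d + d') * (d + d') := by
            have : (0 : ℤ) ≤ ((d : ℤ) - d') ^ 2 := sq_nonneg _
            zify
            nlinarith
          nlinarith
        obtain ⟨n1, hn1⟩ : ∃ n1, n = n1 + d := ⟨n - d, by omega⟩
        obtain ⟨d1, hd1'⟩ : ∃ d1, d + d' = 2 * n + d1 := ⟨d + d' - 2 * n, by omega⟩
        have hmul : d * d1 = n1 ^ 2 + 1 := by
          have e1 : (d' : ℤ) = 2 * n + d1 - d := by
            have : ((d + d' : ℕ) : ℤ) = ((2 * n + d1 : ℕ) : ℤ) := by rw [hd1']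
            push_cast at this
            linarith
          have e2 : (n : ℤ) = n1 + d := by exact_mod_cast hn1
          have e3 : (d : ℤ) * d' = n ^ 2 + 1 := by exact_mod_cast h
          have e4 : (d : ℤ) * d1 = n1 ^ 2 + 1 := by
            rw [e1, e2] at e3
            linear_combination e3
          exact_mod_cast e4
        obtain ⟨a, b, c, e, h1, h2, h3, h4⟩ := ih n1 (by omega) d d1 hmul
        have e1 : (d' : ℤ) = 2 * n + d1 - d := by
          have : ((d + d' : ℕ) : ℤ) = ((2 * n + d1 : ℕ) : ℤ) := by rw [hd1']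
          push_cast at this
          linarith
        have e2 : (n : ℤ) = n1 + d := by exact_mod_cast hn1
        refine ⟨a, b, c + a, e + b, h1, ?_, ?_, ?_⟩
        · rw [e1, e2]
          linear_combination h2 + 2 * h4 + h1
        · linear_combination h3
        · rw [e2]
          linear_combination h4 + h1
    intro d d' h
    rcases le_total d d' with h1 | h1
    · exact aux d d' h1 h
    · obtain ⟨a, b, c, e, h2, h3, h4, h5⟩ := aux d' d h1 (by rw [mul_comm]; exact h)
      exact ⟨e, c, b, a, by linear_combination h3, by linear_combination h2,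
        by linear_combination h4, by linear_combination h5⟩

/-- a pair with a normalised first vector -/
theorem rep' {n d d' : ℕ} (h : d * d' = n ^ 2 + 1) : ∃ a b c e : ℤ,
    a ^ 2 + b ^ 2 = d ∧ c ^ 2 + e ^ 2 = d' ∧ a * e - b * c = 1 ∧ 0 < a ∧ |b| ≤ a := by
  have sgn : ∀ a b c e : ℤ, a ^ 2 + b ^ 2 = d → c ^ 2 + e ^ 2 = d' → a * e - b * c = 1 →
      |b| ≤ |a| → ∃ a b c e : ℤ,
      a ^ 2 + b ^ 2 = d ∧ c ^ 2 + e ^ 2 = d' ∧ a * e - b * c = 1 ∧ 0 < a ∧ |b| ≤ a := by
    intro a b c e h1 h2 h3 h4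
    rcases lt_trichotomy a 0 with ha | ha | ha
    · refine ⟨-a, -b, -c, -e, by linear_combination h1, by linear_combination h2,
        by linear_combination h3, by omega, ?_⟩
      rw [abs_neg]
      rwa [abs_of_neg ha] at h4
    · subst ha
      rw [abs_zero] at h4
      have hb : b = 0 := abs_eq_zero.1 (le_antisymm h4 (abs_nonneg b))
      subst hb
      norm_num at h3
    · refine ⟨a, b, c, e, h1, h2, h3, ha, ?_⟩
      rwa [abs_of_pos ha] at h4
  obtain ⟨a, b, c, e, h1, h2, h3, -⟩ := rep n d d' h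
  rcases le_total |b| |a| with h4 | h4
  · exact sgn a b c e h1 h2 h3 h4
  · refine sgn (-b) a (-e) c (by linear_combination h1) (by linear_combination h2)
      (by linear_combination h3) ?_
    rwa [abs_neg]

/-- the number of the solutions of a linear congruence in an interval -/
theorem cnt {a b : ℤ} (ha : 0 < a) (S : ℕ) :
    (((Icc (-(S : ℤ)) S).filter (fun c => a ∣ b * c + 1)).card : ℝ) ≤ (2 * S + 1) / a + 1 := by
  have ha' : (0 : ℝ) < a := by exact_mod_cast ha
  rcases ((Icc (-(S : ℤ)) S).filter (fun c => a ∣ b * c + 1)).eq_empty_or_nonempty with h | ⟨c0, h⟩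
  · rw [h, card_empty, Nat.cast_zero]
    positivity
  · have h0 := (mem_filter.1 h).2
    have hcop : IsCoprime a b := by
      obtain ⟨q, hq⟩ := h0
      exact ⟨q, -c0, by linear_combination -hq⟩
    have hsub : (Icc (-(S : ℤ)) S).filter (fun c => a ∣ b * c + 1) ⊆
        (Ioc (-(S : ℤ) - 1) S).filter (fun c => c ≡ c0 [ZMOD a]) := by
      intro c hc
      rw [mem_filter, mem_Icc] at hc
      rw [mem_filter, mem_Ioc]
      refine ⟨⟨by omega, by omega⟩, ?_⟩
      have h1 : a ∣ b * (c0 - c) := by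
        have := dvd_sub h0 hc.2
        have e : b * c0 + 1 - (b * c + 1) = b * (c0 - c) := by ring
        rwa [e] at this
      exact (Int.modEq_iff_dvd.2 (hcop.dvd_of_dvd_mul_left h1))
    have h1 := card_le_card hsub
    have h2 := Int.Ioc_filter_modEq_card (-(S : ℤ) - 1) S ha c0
    have h3 : ((⌊(((S : ℤ) : ℚ) - c0) / (a : ℚ)⌋ - ⌊(((-(S : ℤ) - 1 : ℤ) : ℚ) - c0) / (a : ℚ)⌋ : ℤ) :
        ℚ) ≤ (2 * S + 1) / a + 1 := by
      have f1 := Int.floor_le ((((S : ℤ) : ℚ) - c0) / (a : ℚ))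
      have f2 := Int.lt_floor_add_one ((((-(S : ℤ) - 1 : ℤ) : ℚ) - c0) / (a : ℚ))
      push_cast at f1 f2 ⊢
      have haq : (0 : ℚ) < a := by exact_mod_cast ha
      have f3 : ((S : ℚ) - c0) / a - (-(S : ℚ) - 1 - c0) / a = (2 * S + 1) / a := by
        field_simp
        ring
      linarith
    have h4 : ((((Ioc (-(S : ℤ) - 1) S).filter (fun c => c ≡ c0 [ZMOD a])).card : ℤ) : ℚ) ≤
        (2 * S + 1) / a + 1 := by
      rw [h2]
      push_cast [max_def]
      split_ifs
      · have haq : (0 : ℚ) < a := by exact_mod_cast ha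
        positivity
      · push_cast at h3
        exact h3
    have h5 : ((((Ioc (-(S : ℤ) - 1) S).filter (fun c => c ≡ c0 [ZMOD a])).card : ℕ) : ℝ) ≤
        (2 * S + 1) / a + 1 := by
      have h6 : ((((((Ioc (-(S : ℤ) - 1) S).filter (fun c => c ≡ c0 [ZMOD a])).card : ℕ) : ℚ) :
          ℚ) : ℝ) ≤ (((2 * S + 1) / a + 1 : ℚ) : ℝ) := by
        exact_mod_cast h4
      push_cast at h6
      exact h6
    refine le_trans ?_ h5
    exact_mod_cast h1

open scoped Classical in
theorem scnt : Pool.Agent.W78.EC.S_SCNT := by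
  refine ⟨12, fun m M hm hmM => ?_⟩
  obtain ⟨s, hs⟩ : ∃ s, s = Nat.sqrt m := ⟨_, rfl⟩
  obtain ⟨S, hS⟩ : ∃ S, S = Nat.sqrt M := ⟨_, rfl⟩
  let T : Finset (ℤ × ℤ × ℤ) := (Icc (1 : ℤ) s).biUnion fun a => (Icc (-a) a).biUnion fun b =>
    ((Icc (-(S : ℤ)) S).filter (fun c => a ∣ b * c + 1)).image (fun c => (a, b, c))
  let φ : ℤ × ℤ × ℤ → ℕ × ℕ := fun t => ((t.1 ^ 2 + t.2.1 ^ 2).toNat,
    (t.2.2 ^ 2 + ((t.2.1 * t.2.2 + 1) / t.1) ^ 2).toNat)
  have hsub : ((Icc 1 m) ×ˢ (Icc 1 M)).filter (fun p => ∃ n : ℕ, p.1 * p.2 = n ^ 2 + 1) ⊆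
      T.image φ := by
    rintro ⟨d, d'⟩ hp
    rw [mem_filter, mem_product, mem_Icc, mem_Icc] at hp
    obtain ⟨⟨⟨-, hdm⟩, -, hdM⟩, n, hn⟩ := hp
    obtain ⟨a, b, c, e, h1, h2, h3, h4, h5⟩ := rep' hn
    have he : (b * c + 1) / a = e := by
      have : b * c + 1 = a * e := by linear_combination -h3
      rw [this]
      exact Int.mul_ediv_cancel_left _ h4.ne'
    have hdm' : (d : ℤ) ≤ m := by exact_mod_cast hdm
    have hdM' : (d' : ℤ) ≤ M := by exact_mod_cast hdM
    have has : a ≤ s := by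
      have h6 : a.natAbs ≤ s := by
        rw [hs, Nat.le_sqrt']
        have h7 : ((a.natAbs ^ 2 : ℕ) : ℤ) ≤ m := by
          push_cast
          rw [sq_abs]
          nlinarith [sq_nonneg b]
        exact_mod_cast h7
      omega
    have hcS : |c| ≤ S := by
      have h6 : c.natAbs ≤ S := by
        rw [hS, Nat.le_sqrt']
        have h7 : ((c.natAbs ^ 2 : ℕ) : ℤ) ≤ M := by
          push_cast
          rw [sq_abs]
          nlinarith [sq_nonneg e]
        exact_mod_cast h7
      have h7 : ((c.natAbs : ℕ) : ℤ) ≤ S := by exact_mod_cast h6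
      rwa [Int.natCast_natAbs] at h7
    rw [mem_image]
    refine ⟨(a, b, c), ?_, ?_⟩
    · rw [mem_biUnion]
      refine ⟨a, mem_Icc.2 ⟨by omega, has⟩, ?_⟩
      rw [mem_biUnion]
      refine ⟨b, mem_Icc.2 (abs_le.1 h5), ?_⟩
      rw [mem_image]
      refine ⟨c, mem_filter.2 ⟨mem_Icc.2 (abs_le.1 hcS), ⟨e, by linear_combination -h3⟩⟩, rfl⟩
    · show ((a ^ 2 + b ^ 2).toNat, (c ^ 2 + ((b * c + 1) / a) ^ 2).toNat) = (d, d')
      rw [he, h1, h2]
      simp
  have hsR : (s : ℝ) ≤ Real.sqrt m := by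
    rw [hs]
    exact Real.nat_sqrt_le_real_sqrt
  have hSR : (S : ℝ) ≤ Real.sqrt M := by
    rw [hS]
    exact Real.nat_sqrt_le_real_sqrt
  have hM1 : 1 ≤ Real.sqrt M := by
    rw [Real.one_le_sqrt]
    exact_mod_cast hm.trans hmM
  have hmM' : Real.sqrt m ≤ Real.sqrt M := Real.sqrt_le_sqrt (by exact_mod_cast hmM)
  have hT : (T.card : ℝ) ≤ s * (12 * Real.sqrt M) := by
    have h1 : (T.card : ℝ) ≤ ∑ a ∈ Icc (1 : ℤ) s, (((Icc (-a) a).biUnion fun b =>
        ((Icc (-(S : ℤ)) S).filter (fun c => a ∣ b * c + 1)).image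
          (fun c => (a, b, c))).card : ℝ) := by
      exact_mod_cast card_biUnion_le
    refine h1.trans ?_
    have h2 : ∀ a ∈ Icc (1 : ℤ) s, (((Icc (-a) a).biUnion fun b =>
        ((Icc (-(S : ℤ)) S).filter (fun c => a ∣ b * c + 1)).image
          (fun c => (a, b, c))).card : ℝ) ≤ 12 * Real.sqrt M := by
      intro a ha
      rw [mem_Icc] at ha
      have ha0 : (0 : ℝ) < a := by exact_mod_cast (show (0 : ℤ) < a by omega)
      have ha1 : (1 : ℝ) ≤ a := by exact_mod_cast ha.1
      have haM : (a : ℝ) ≤ Real.sqrt M := by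
        have : (a : ℝ) ≤ s := by exact_mod_cast ha.2
        linarith
      have h3 : (((Icc (-a) a).biUnion fun b =>
        ((Icc (-(S : ℤ)) S).filter (fun c => a ∣ b * c + 1)).image
          (fun c => (a, b, c))).card : ℝ) ≤ ∑ b ∈ Icc (-a) a, ((((Icc (-(S : ℤ)) S).filter
            (fun c => a ∣ b * c + 1)).image (fun c => (a, b, c))).card : ℝ) := by
        exact_mod_cast card_biUnion_le
      have h4 : ∀ b ∈ Icc (-a) a, ((((Icc (-(S : ℤ)) S).filter
            (fun c => a ∣ b * c + 1)).image (fun c => (a, b, c))).card : ℝ) ≤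
            4 * Real.sqrt M / a := by
        intro b _
        have h5 : ((((Icc (-(S : ℤ)) S).filter
            (fun c => a ∣ b * c + 1)).image (fun c => (a, b, c))).card : ℝ) ≤
            (((Icc (-(S : ℤ)) S).filter (fun c => a ∣ b * c + 1)).card : ℝ) := by
          exact_mod_cast card_image_le
        refine h5.trans ((cnt (by omega) S).trans ?_)
        rw [div_add_one ha0.ne']
        refine div_le_div_of_nonneg_right ?_ ha0.le
        linarith
      refine h3.trans ((sum_le_sum h4).trans ?_)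
      rw [sum_const, nsmul_eq_mul, Int.card_Icc]
      have h6 : (((a + 1 - -a).toNat : ℕ) : ℝ) = 2 * a + 1 := by
        have : (((a + 1 - -a).toNat : ℕ) : ℤ) = 2 * a + 1 := by
          rw [Int.toNat_of_nonneg (by omega)]
          ring
        exact_mod_cast this
      rw [h6]
      rw [mul_div_assoc', div_le_iff₀ ha0]
      nlinarith
    refine (sum_le_sum h2).trans ?_
    rw [sum_const, nsmul_eq_mul, Int.card_Icc]
    have h7 : (((s : ℤ) + 1 - 1).toNat : ℝ) = s := by simp
    rw [h7]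
  have h8 : ((((Icc 1 m) ×ˢ (Icc 1 M)).filter
      (fun p => ∃ n : ℕ, p.1 * p.2 = n ^ 2 + 1)).card : ℝ) ≤ T.card := by
    exact_mod_cast (card_le_card hsub).trans card_image_le
  refine h8.trans (hT.trans ?_)
  rw [Real.sqrt_mul (Nat.cast_nonneg m)]
  have h9 : (s : ℝ) * (12 * Real.sqrt M) ≤ Real.sqrt m * (12 * Real.sqrt M) :=
    mul_le_mul_of_nonneg_right hsR (by positivity)
  linarith

end Pool.Agent.W368.EC
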